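import Mathlib
import Pool.Agent.Lib.MP_89175a_an.Final
import Pool.Agent.Lib.MP_89175a_an.DqHaar

/-!
For every `1 < p < 2` there are `f` in `L_p(ℝ)` and a sequence of translates of `f` which is a basic
sequence and whose closed linear span contains an isomorphic copy of `L_p[0,1]`.
-/

open MeasureTheory Filter Topology
open scoped ENNReal

namespace Pool.Agent.Results.MP_89175a_an.TranslatesContainLp

theorem result (p : ℝ≥0∞) [Fact (1 ≤ p)] (hp1 : 1 < p) (hp2 : p < 2) :
    ∃ (f : Lp ℝ p (volume : Measure ℝ)) (lam : ℕ → ℝ) (F : ℕ → Lp ℝ p (volume : Measure ℝ)),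
      (∀ i, F i = Lp.compMeasurePreserving (fun y : ℝ => y - lam i)
        (measurePreserving_sub_right volume (lam i)) f) ∧
      (∀ x ∈ (Submodule.span ℝ (Set.range F)).topologicalClosure,
        ∃! a : ℕ → ℝ, Tendsto (fun n => ∑ i ∈ Finset.range n, a i • F i) atTop (𝓝 x)) ∧
      ∃ Y : Submodule ℝ (Lp ℝ p (volume : Measure ℝ)),
        IsClosed (Y : Set (Lp ℝ p (volume : Measure ℝ))) ∧
        Y ≤ (Submodule.span ℝ (Set.range F)).topologicalClosure ∧
        Nonempty (Lp ℝ p (volume.restrict (Set.Icc (0 : ℝ) 1)) ≃L[ℝ] Y) := by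
  obtain ⟨f, lam, hf, ⟨C, hC⟩, T, ⟨δ, hδ, hT⟩, hTs⟩ :=
    Pool.Agent.Lib.MP89175a.main_analytic hp1 hp2 (Pool.Agent.Lib.MP89175a.dq_haar hp1 hp2)
  refine ⟨f, lam, fun i => Pool.Agent.Lib.MP89175a.tr (lam i) f, fun i => rfl, ?_, ?_⟩
  · intro x hx
    have hne : ∀ i, Pool.Agent.Lib.MP89175a.tr (lam i) f ≠ 0 := by
      intro i h
      apply hf
      rw [← norm_eq_zero, ← Pool.Agent.Lib.MP89175a.norm_tr (lam i) f, h, norm_zero]
    exact Pool.Agent.Lib.MP89175a.schauder_of_prefix (fun i => Pool.Agent.Lib.MP89175a.tr (lam i) f) C hne hC x hx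
  · have hanti : AntilipschitzWith (Real.toNNReal δ⁻¹) T := by
      apply AddMonoidHomClass.antilipschitz_of_bound
      intro F
      rw [Real.coe_toNNReal _ (inv_nonneg.2 hδ.le), inv_mul_eq_div, le_div_iff₀ hδ, mul_comm]
      exact hT F
    have hclosed : IsClosed (Set.range T) := hanti.isClosed_range T.uniformContinuous
    refine ⟨LinearMap.range (T : Lp ℝ p (volume.restrict (Set.Icc (0 : ℝ) 1)) →ₗ[ℝ] Lp ℝ p (volume : Measure ℝ)),
      ?_, ?_, ⟨T.equivRange hanti.injective hclosed⟩⟩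
    · exact hclosed
    · rintro _ ⟨F, rfl⟩
      exact hTs F

end Pool.Agent.Results.MP_89175a_an.TranslatesContainLp
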